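import Pool.Agent.D0H99.AC.Mn

/-!
# The Selmer group conjecture for almost all superelliptic curves over almost all coverings

`k` is a number field containing the `ℓ`-th roots of unity. The starting result `AlmostAllCurves` is
about 100 percent of the curves `y ^ ℓ = g 0 (t) (x - g 1 (t)) ... (x - g N (t))` over `k(t)`, so the
curve `C` of the problem is the projective line. Here the curve `C` varies as well: for 100 percent of
the tuples of polynomials `(g 0, ..., g N; h 1, ..., h r)` the conclusion is proved for the Jacobian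
and its twists by products of constants and powers of the `h j` over the fields generated over `k(t)`
by the `ℓ`-th roots of such products, for example over `L = k(t)(h 1 ^ (1/ℓ), ..., h r ^ (1/ℓ))`, the
function field of a curve of large genus.

The definitions of the Jacobian `J`, of its Galois cohomology and of the groups of locally trivial
classes are in `Pool.Agent.Y713.SE.Stm`.
-/

set_option autoImplicit false
set_option linter.all false

open Polynomial NumberField IsDedekindDomain

namespace Pool.Agent.Results.MP_1bdb59_nt.AlmostAllCurvesOverCovers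

/-- The polynomial `c (x, 0) + c (x, 1) t + ... + c (x, n) t ^ n` over `k`: it is `g i` for
`x = Sum.inl i`, `i` in `{0, ..., N}`, and `h j` for `x = Sum.inr j`. -/
noncomputable def coeffPoly {k : Type} [Field k] {N r n : ℕ}
    (c : (Fin (N + 1) ⊕ Fin r) × Fin (n + 1) → 𝓞 k) (x : Fin (N + 1) ⊕ Fin r) : k[X] :=
  ∑ j : Fin (n + 1), C (algebraMap (𝓞 k) k (c (x, j))) * X ^ (j : ℕ)

/-- The product of the constant `d` and of the powers `(h j) ^ (a j)`. -/
noncomputable def product {k : Type} [Field k] {N r n : ℕ}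
    (c : (Fin (N + 1) ⊕ Fin r) × Fin (n + 1) → 𝓞 k) (d : k) (a : Fin r → ℕ) : k[X] :=
  C d * ∏ j, coeffPoly c (Sum.inr j) ^ a j

/-- The polynomial `f(t) g 0 (t) (x - g 1 (t)) ... (x - g N (t))` in `x` over the extension `L` of
`k(t)`. -/
noncomputable def curve {k : Type} [Field k] {N r n : ℕ}
    (c : (Fin (N + 1) ⊕ Fin r) × Fin (n + 1) → 𝓞 k) (f : k[X]) (L : Type) [Field L]
    [Algebra (RatFunc k) L] : L[X] :=
  (C (algebraMap k[X] (RatFunc k) f) * (C (algebraMap k[X] (RatFunc k) (coeffPoly c (Sum.inl 0))) *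
    ∏ i : Fin N, (X - C (algebraMap k[X] (RatFunc k) (coeffPoly c (Sum.inl i.succ)))))).map
      (algebraMap (RatFunc k) L)

/-- Every class of `ℓ`-power order in `H ^ 1 (L, J)`, `J` the Jacobian of `y ^ ℓ = F(x)`, which is
zero over the completions of `L = Frac R` at all maximal ideals of `R` is killed by `ℓ ^ m`
(the group `J` is written multiplicatively). -/
def ShaKilled (ℓ m : ℕ) {L : Type} [Field L] (F : L[X]) (R : Type) [CommRing R]
    [IsDedekindDomain R] [Algebra R L] [IsFractionRing R L] : Prop :=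
  ∀ (f : Y713.Jac.Cochain ℓ F) (n : ℕ), Y713.Jac.IsCocycle ℓ F f →
    Y713.Jac.IsLocallyTrivial ℓ F R f →
    Y713.Jac.IsCoboundary ℓ F (fun σ => f σ ^ ℓ ^ n) →
    Y713.Jac.IsCoboundary ℓ F (fun σ => f σ ^ ℓ ^ m)

/-- The tuple `(g 0, ..., g N; h 1, ..., h r)` is good: for all fields `L` generated over `k(t)` by
the `ℓ`-th roots of `s` products of nonzero constants and powers of the `h j`, with `R` the integral
closure of `k[t]` in `L`, and for the Jacobian `J` of
`y ^ ℓ = f(t) g 0 (t) (x - g 1 (t)) ... (x - g N (t))`, where `f` is any product of a nonzero constant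
and powers of the `h j`, every class of `ℓ`-power order in `H ^ 1 (L, J)` which is zero over the
completions at all maximal ideals of `R` is killed by `ℓ ^ s`, and the `ℓ`-adic Tate module of the
group of these classes is zero. -/
def IsGood (ℓ : ℕ) {k : Type} [Field k] {N r n : ℕ}
    (c : (Fin (N + 1) ⊕ Fin r) × Fin (n + 1) → 𝓞 k) : Prop :=
  ∀ (L : Type) [Field L] [Algebra (RatFunc k) L] [Algebra k[X] L]
    [IsScalarTower k[X] (RatFunc k) L] (s : ℕ) (d : k) (a : Fin r → ℕ) (d' : Fin s → k)
    (e : Fin s → Fin r → ℕ) (u : Fin s → L) (_ : d ≠ 0) (_ : ∀ i, d' i ≠ 0)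
    (_ : ∀ i, u i ^ ℓ = algebraMap (RatFunc k) L
      (algebraMap k[X] (RatFunc k) (product c (d' i) (e i))))
    (_ : IntermediateField.adjoin (RatFunc k) (Set.range u) = ⊤)
    (R : Type) [CommRing R] [IsDedekindDomain R] [Algebra R L] [IsFractionRing R L]
    [Algebra k[X] R] [IsScalarTower k[X] R L] [IsIntegralClosure R k[X] L],
    ShaKilled ℓ s (curve c (product c d a) L) R ∧
      Y713.Jac.ShaTateTrivial ℓ (curve c (product c d a) L) R

/-- Let `ℓ` be a prime number, let `k` be a number field containing the `ℓ`-th roots of unity, let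
`N` be prime to `ℓ`, `r` arbitrary and `n ≥ 4`. Then 100 percent of all tuples
`(g 0, ..., g N; h 1, ..., h r)` of polynomials in `t` of degree at most `n` with integral
coefficients, ordered by the size of the coordinates of the coefficients for a given integral basis
`B` of `k`, are good. -/
theorem result (k : Type) [Field k] [NumberField k] (I : Type) [Fintype I]
    (B : Module.Basis I ℤ (𝓞 k)) (ℓ : ℕ) (hℓ : ℓ.Prime) (ζ : k) (hζ : IsPrimitiveRoot ζ ℓ)
    (N : ℕ) (hN : ¬ ℓ ∣ N) (r n : ℕ) (hn : 4 ≤ n) (η : ℝ) (hη : 0 < η) :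
    ∃ H₀ : ℕ, ∀ H : ℕ, H₀ ≤ H →
      ({c : (Fin (N + 1) ⊕ Fin r) × Fin (n + 1) → 𝓞 k | (∀ q j, |B.repr (c q) j| ≤ (H : ℤ)) ∧
        ¬ IsGood ℓ c}.ncard : ℝ) ≤
        η * ((2 * (H : ℝ) + 1) ^ ((N + 1 + r) * (n + 1))) ^ Fintype.card I := by
  obtain ⟨H0, h0⟩ := Pool.Agent.D0H99.AC.main B hℓ hζ hN r hn (IsGood ℓ) (by
    rintro c ⟨h1, h2, h3, h4, h5⟩ L _ _ _ _ s d a d' e u hd hd' hu hgen R _ _ _ _ _ _ _
    have h6 : ((ℓ : ℕ) : k) ≠ 0 := by exact_mod_cast hℓ.ne_zero
    have h7 := Pool.Agent.D0H99.AC.layers hℓ hζ h6 h1 h2 (by rw [h3]; exact hN) Finset.univ h4 h5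
      L s d a d' e u hd hd' hu hgen R
    exact ⟨h7, Pool.Agent.D0H99.EA.Killed.tate h7⟩) hη
  refine ⟨H0, fun H hH => ?_⟩
  rw [← pow_mul]
  exact h0 H hH

end Pool.Agent.Results.MP_1bdb59_nt.AlmostAllCurvesOverCovers
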