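import Pool.Agent.D0H99.EA.Fin2

/-!
# The Selmer group conjecture over coverings of the line, for all infinite base fields

`k` is the field of fractions of a Dedekind domain with infinitely many maximal ideals, for example
any infinite finitely generated field (a number field, a function field over a finite field, ...),
and `L` is the function field of an arbitrary abelian covering of exponent `ℓ` of the line over `k`.
The starting results of this problem for such `k` are about Jacobians over `k(t)` only, and the
results over other base curves are for finite `k` (and `ℓ = 2`) or for number fields `k`.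

The definitions of the Jacobian `J`, of its Galois cohomology and of the groups of locally trivial
classes are in `Pool.Agent.Y713.SE.Stm`.
-/

set_option autoImplicit false
set_option linter.all false

open Polynomial IsDedekindDomain

namespace Pool.Agent.Results.MP_1bdb59_nt.CoversOverInfiniteFields

/-- The polynomial `D(t) G(x)` in `x` over `L`. -/
noncomputable def twist {k : Type} [Field k] (D : k[X]) (G : (RatFunc k)[X]) (L : Type) [Field L]
    [Algebra (RatFunc k) L] : L[X] :=
  (C (algebraMap k[X] (RatFunc k) D) * G).map (algebraMap (RatFunc k) L)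

/-- Every class of `ℓ`-power order in `H ^ 1 (L, J)`, `J` the Jacobian of `y ^ ℓ = F(x)`, which is
zero over the completions of `L = Frac R` at all maximal ideals of `R` is killed by `ℓ ^ m`
(the group `J` is written multiplicatively). -/
def ShaKilled (ℓ m : ℕ) {L : Type} [Field L] (F : L[X]) (R : Type) [CommRing R]
    [IsDedekindDomain R] [Algebra R L] [IsFractionRing R L] : Prop :=
  ∀ (f : Y713.Jac.Cochain ℓ F) (n : ℕ), Y713.Jac.IsCocycle ℓ F f →
    Y713.Jac.IsLocallyTrivial ℓ F R f →
    Y713.Jac.IsCoboundary ℓ F (fun σ => f σ ^ ℓ ^ n) →
    Y713.Jac.IsCoboundary ℓ F (fun σ => f σ ^ ℓ ^ m)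

/-- Let `k` be the field of fractions of a Dedekind domain `O` with infinitely many maximal ideals,
`ℓ` a prime number different from the characteristic of `k` such that `k` contains the `ℓ`-th roots
of unity, `L` a field generated over `k(t)` by `r` elements whose `ℓ`-th powers are in `k(t)`, `R`
the integral closure of `k[t]` in `L`, and `G` a separable polynomial over `k(t)` of degree prime to
`ℓ` with all roots in `k(t)`. Then there are monic irreducible polynomials `D` over `k` of
arbitrarily large degree such that for the Jacobian `J` of the curve `y ^ ℓ = D(t) G(x)` over `L`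
every class of `ℓ`-power order in `H ^ 1 (L, J)` which is zero over the completions of `L` at all
places which are not over the point at infinity of the line is killed by `ℓ ^ r`, and the `ℓ`-adic
Tate module of the group of these classes, hence that of the Tate-Shafarevich group of `J`, is
zero. -/
theorem result (O : Type) [CommRing O] [IsDedekindDomain O] [Infinite (HeightOneSpectrum O)]
    (k : Type) [Field k] [Algebra O k] [IsFractionRing O k] (ℓ : ℕ) (hℓ : ℓ.Prime)
    (hk : (ℓ : k) ≠ 0) (ζ : k) (hζ : IsPrimitiveRoot ζ ℓ)
    (L : Type) [Field L] [Algebra (RatFunc k) L] [Algebra k[X] L]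
    [IsScalarTower k[X] (RatFunc k) L] (r : ℕ) (u : Fin r → L)
    (hu : ∀ i, ∃ d : RatFunc k, u i ^ ℓ = algebraMap (RatFunc k) L d)
    (hgen : IntermediateField.adjoin (RatFunc k) (Set.range u) = ⊤)
    (R : Type) [CommRing R] [IsDedekindDomain R] [Algebra R L] [IsFractionRing R L]
    [Algebra k[X] R] [IsScalarTower k[X] R L] [IsIntegralClosure R k[X] L]
    (G : (RatFunc k)[X]) (hs : G.Splits) (hsep : G.Separable) (hdeg : ¬ ℓ ∣ G.natDegree) (N : ℕ) :
    ∃ D : k[X], D.Monic ∧ Irreducible D ∧ N ≤ D.natDegree ∧
      ShaKilled ℓ r (twist D G L) R ∧ Y713.Jac.ShaTateTrivial ℓ (twist D G L) R := by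
  obtain ⟨D, h1, h2, h3, h4⟩ := Pool.Agent.D0H99.EA.main_inf (O := O) inferInstance hℓ hk hζ hu hgen
    (R := R) hs hsep hdeg N
  exact ⟨D, h1, h2, h3, h4, Pool.Agent.D0H99.EA.Killed.tate h4⟩

end Pool.Agent.Results.MP_1bdb59_nt.CoversOverInfiniteFields
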