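import Pool.Agent.D0H99.EA.Fin

/-!
# The Selmer group conjecture over elementary abelian coverings of the line

The starting results of this problem over number fields `k` are about Jacobians over `k(t)`: the
curve `C` of the problem is the projective line. Here `L` is the function field of an arbitrary
abelian covering of exponent `ℓ` of the projective line over a number field `k` containing the
`ℓ`-th roots of unity (for `ℓ = 2`: all hyperelliptic curves over all number fields and all the
fields `k(t)(√d_1, ..., √d_r)`), and `J` is the Jacobian of `y ^ ℓ = D(t) G(x)` over `L`.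

The proof: the classes over `L` are mapped by twisted corestrictions to the classes over `k(t)` for
the `ℓ ^ r` twists of `J` by the characters of `L / k(t)`, the local conditions are respected, and
the sum of the restrictions is the multiplication by `ℓ ^ r`; for 100 percent of the `D` all these
twists have a trivial `ℓ`-primary part (`Pool.Agent.D0H99.EA.Desc`).

The definitions of the Jacobian `J`, of its Galois cohomology and of the groups of locally trivial
classes are in `Pool.Agent.Y713.SE.Stm`.
-/

set_option autoImplicit false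
set_option linter.all false

open Polynomial NumberField IsDedekindDomain

namespace Pool.Agent.Results.MP_1bdb59_nt.ElementaryAbelianCovers

/-- The polynomial `c 0 + c 1 t + ... + c n t ^ n` over `k`. -/
noncomputable def twistPoly {k : Type} [Field k] {n : ℕ} (c : Fin (n + 1) → 𝓞 k) : k[X] :=
  ∑ i, C (algebraMap (𝓞 k) k (c i)) * X ^ (i : ℕ)

/-- The polynomial `D(t) G(x)` in `x` over `L`, where `D` is `twistPoly c`. -/
noncomputable def twist {k : Type} [Field k] {n : ℕ} (c : Fin (n + 1) → 𝓞 k)
    (G : (RatFunc k)[X]) (L : Type) [Field L] [Algebra (RatFunc k) L] : L[X] :=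
  (C (algebraMap k[X] (RatFunc k) (twistPoly c)) * G).map (algebraMap (RatFunc k) L)

/-- Every class of `ℓ`-power order in `H ^ 1 (L, J)`, `J` the Jacobian of `y ^ ℓ = F(x)`, which is
zero over the completions of `L = Frac R` at all maximal ideals of `R` is killed by `ℓ ^ m`
(the group `J` is written multiplicatively). -/
def ShaKilled (ℓ m : ℕ) {L : Type} [Field L] (F : L[X]) (R : Type) [CommRing R]
    [IsDedekindDomain R] [Algebra R L] [IsFractionRing R L] : Prop :=
  ∀ (f : Y713.Jac.Cochain ℓ F) (n : ℕ), Y713.Jac.IsCocycle ℓ F f →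
    Y713.Jac.IsLocallyTrivial ℓ F R f →
    Y713.Jac.IsCoboundary ℓ F (fun σ => f σ ^ ℓ ^ n) →
    Y713.Jac.IsCoboundary ℓ F (fun σ => f σ ^ ℓ ^ m)

/-- Let `ℓ` be a prime, `k` a number field with a primitive `ℓ`-th root of unity (any number field
if `ℓ = 2`), `L` a field generated over `k(t)` by `r` elements whose `ℓ`-th powers are in `k(t)`,
`R` the integral closure of `k[t]` in `L`, and `G` a polynomial over `k(t)` of degree prime to `ℓ`
without multiple roots and with all roots in `k(t)`. Let `n ≥ 2`, and `n ≥ 3` if `ℓ = 2`. For 100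
percent of all polynomials `D(t)` of degree at most `n` with integral coefficients, ordered by the
size of the coordinates of the coefficients for a given integral basis `B` of `k`, the following
holds for the Jacobian `J` of the curve `y ^ ℓ = D(t) G(x)` over `L`: every class of `ℓ`-power order
in `H ^ 1 (L, J)` which is zero over the completions of `L` at all places which are not over the
point at infinity of the line is killed by `ℓ ^ r`, and the `ℓ`-adic Tate module of the group of
these classes, hence that of the Tate-Shafarevich group of `J`, is zero. -/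
theorem result (k : Type) [Field k] [NumberField k] (I : Type) [Fintype I]
    (B : Module.Basis I ℤ (𝓞 k)) (ℓ : ℕ) (hℓ : ℓ.Prime) (ζ : k) (hζ : IsPrimitiveRoot ζ ℓ)
    (L : Type) [Field L] [Algebra (RatFunc k) L] [Algebra k[X] L]
    [IsScalarTower k[X] (RatFunc k) L] (r : ℕ) (u : Fin r → L)
    (hu : ∀ i, ∃ d : RatFunc k, u i ^ ℓ = algebraMap (RatFunc k) L d)
    (hgen : IntermediateField.adjoin (RatFunc k) (Set.range u) = ⊤)
    (R : Type) [CommRing R] [IsDedekindDomain R] [Algebra R L] [IsFractionRing R L]
    [Algebra k[X] R] [IsScalarTower k[X] R L] [IsIntegralClosure R k[X] L]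
    (G : (RatFunc k)[X]) (hs : G.Splits) (hsep : G.Separable) (hdeg : ¬ ℓ ∣ G.natDegree)
    (n : ℕ) (hn : 2 ≤ n) (hn2 : n = 2 → ℓ ≠ 2) (η : ℝ) (hη : 0 < η) :
    ∃ H₀ : ℕ, ∀ H : ℕ, H₀ ≤ H →
      ({c : Fin (n + 1) → 𝓞 k | (∀ i j, |B.repr (c i) j| ≤ (H : ℤ)) ∧
        ¬ (ShaKilled ℓ r (twist c G L) R ∧
          Y713.Jac.ShaTateTrivial ℓ (twist c G L) R)}.ncard : ℝ) ≤
        η * ((2 * (H : ℝ) + 1) ^ (n + 1)) ^ Fintype.card I := by
  obtain ⟨H0, h0⟩ := Pool.Agent.D0H99.EA.main_nf B hℓ hζ hu hgen (R := R) hs hsep hdeg hn hn2 hη
  refine ⟨H0, fun H hH => ?_⟩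
  rw [← pow_mul]
  refine le_trans (le_of_eq ?_) (h0 H hH)
  congr 2
  ext c
  simp only [Set.mem_setOf_eq]
  refine and_congr_right fun _ => not_congr ?_
  exact ⟨fun h => h.1, fun h => ⟨h, Pool.Agent.D0H99.EA.Killed.tate h⟩⟩

end Pool.Agent.Results.MP_1bdb59_nt.ElementaryAbelianCovers
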