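import Pool.Agent.D0H99.EA.Tower

/-!
# The Selmer group conjecture along infinite towers of coverings of the line

`k` is the field of fractions of a Dedekind domain with infinitely many maximal ideals, for example
any infinite finitely generated field. For a polynomial `G(x)` there is an infinite sequence of
irreducible polynomials `D_0, D_1, ...` over `k` such that the `ℓ`-adic Tate module of the
Tate-Shafarevich group is zero for the twists of `y ^ ℓ = G(x)` by all products `d` of constants
and of powers of the `D_j`, over all finite layers of the infinite tower of the covers of the line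
generated by `ℓ`-th roots of such products (with constant extensions), as long as `d` is not a
constant times an `ℓ`-th power in the layer: one sequence for all twists and all layers.

The definitions of the Jacobian `J`, of its Galois cohomology and of the groups of locally trivial
classes are in `Pool.Agent.Y713.SE.Stm`.
-/

set_option autoImplicit false
set_option linter.all false

open Polynomial IsDedekindDomain

namespace Pool.Agent.Results.MP_1bdb59_nt.InfiniteTowers

/-- The polynomial `d(t) G(x)` in `x` over `L`. -/
noncomputable def twist {k : Type} [Field k] (d : k[X]) (G : (RatFunc k)[X]) (L : Type) [Field L]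
    [Algebra (RatFunc k) L] : L[X] :=
  (C (algebraMap k[X] (RatFunc k) d) * G).map (algebraMap (RatFunc k) L)

/-- The product of the constant `c` and of the powers `D_j ^ (a j)` with `j < m`. -/
noncomputable def product {k : Type} [Field k] (D : ℕ → k[X]) (m : ℕ) (c : k) (a : ℕ → ℕ) : k[X] :=
  C c * ∏ j ∈ Finset.range m, D j ^ a j

/-- Every class of `ℓ`-power order in `H ^ 1 (L, J)`, `J` the Jacobian of `y ^ ℓ = F(x)`, which is
zero over the completions of `L = Frac R` at all maximal ideals of `R` is killed by `ℓ ^ m`
(the group `J` is written multiplicatively). -/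
def ShaKilled (ℓ m : ℕ) {L : Type} [Field L] (F : L[X]) (R : Type) [CommRing R]
    [IsDedekindDomain R] [Algebra R L] [IsFractionRing R L] : Prop :=
  ∀ (f : Y713.Jac.Cochain ℓ F) (n : ℕ), Y713.Jac.IsCocycle ℓ F f →
    Y713.Jac.IsLocallyTrivial ℓ F R f →
    Y713.Jac.IsCoboundary ℓ F (fun σ => f σ ^ ℓ ^ n) →
    Y713.Jac.IsCoboundary ℓ F (fun σ => f σ ^ ℓ ^ m)

/-- Let `k` be the field of fractions of a Dedekind domain `O` with infinitely many maximal ideals,
`ℓ` a prime number different from the characteristic of `k` such that `k` contains the `ℓ`-th roots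
of unity and `G` a separable polynomial over `k(t)` of degree prime to `ℓ` with all roots in `k(t)`.
Then there is an infinite sequence of monic irreducible polynomials `D_0, D_1, ...` over `k`,
pairwise different and of degrees at least `N`, such that the following holds for all products
`d = c ∏ D_j ^ (a j)` and `d_i = c_i ∏ D_j ^ (e_i j)` (`i < r`) with non-zero constants
`c, c_i` such that no product `d ∏ d_i ^ (t_i)` has all its exponents divisible by `ℓ`. Let `L` be
the field generated over `k(t)` by `ℓ`-th roots of `d_1, ..., d_r` and `R` the integral closure of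
`k[t]` in `L`. Then for the Jacobian `J` of the curve `y ^ ℓ = d(t) G(x)` over `L` every class of
`ℓ`-power order in `H ^ 1 (L, J)` which is zero over the completions of `L` at all places which are
not over the point at infinity of the line is killed by `ℓ ^ r`, and the `ℓ`-adic Tate module of
the group of these classes, hence that of the Tate-Shafarevich group of `J`, is zero. -/
theorem result (O : Type) [CommRing O] [IsDedekindDomain O] [Infinite (HeightOneSpectrum O)]
    (k : Type) [Field k] [Algebra O k] [IsFractionRing O k] (ℓ : ℕ) (hℓ : ℓ.Prime)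
    (hk : (ℓ : k) ≠ 0) (ζ : k) (hζ : IsPrimitiveRoot ζ ℓ)
    (G : (RatFunc k)[X]) (hs : G.Splits) (hsep : G.Separable) (hdeg : ¬ ℓ ∣ G.natDegree) (N : ℕ) :
    ∃ D : ℕ → k[X], Function.Injective D ∧
      (∀ j, (D j).Monic ∧ Irreducible (D j) ∧ N ≤ (D j).natDegree) ∧
      ∀ (L : Type) [Field L] [Algebra (RatFunc k) L] [Algebra k[X] L]
        [IsScalarTower k[X] (RatFunc k) L] (m r : ℕ) (c : k) (a : ℕ → ℕ) (c' : Fin r → k)
        (e : Fin r → ℕ → ℕ) (u : Fin r → L) (hc : c ≠ 0) (hc' : ∀ i, c' i ≠ 0)
        (hu : ∀ i, u i ^ ℓ = algebraMap (RatFunc k) L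
          (algebraMap k[X] (RatFunc k) (product D m (c' i) (e i))))
        (hgen : IntermediateField.adjoin (RatFunc k) (Set.range u) = ⊤)
        (hd : ∀ t : Fin r → ℕ, ∃ j < m, ¬ ℓ ∣ a j + ∑ i, e i j * t i)
        (R : Type) [CommRing R] [IsDedekindDomain R] [Algebra R L] [IsFractionRing R L]
        [Algebra k[X] R] [IsScalarTower k[X] R L] [IsIntegralClosure R k[X] L],
        ShaKilled ℓ r (twist (product D m c a) G L) R ∧
          Y713.Jac.ShaTateTrivial ℓ (twist (product D m c a) G L) R := by
  obtain ⟨D, h1, h2, h3⟩ := Pool.Agent.D0H99.EA.main_tower (O := O) inferInstance hℓ hk hζ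
    hs hsep hdeg N
  refine ⟨D, h1, h2, ?_⟩
  intro L _ _ _ _ m r c a c' e u hc hc' hu hgen hd R _ _ _ _ _ _ _
  have h4 := h3 L m r c a c' e u hc hc' hu hgen hd R
  exact ⟨h4, Pool.Agent.D0H99.EA.Killed.tate h4⟩

end Pool.Agent.Results.MP_1bdb59_nt.InfiniteTowers
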